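import Mathlib
import Pool.Agent.Helper65.Inj.All

namespace Pool.Agent.Results.MP_25cd9d_co.SubcubicBipartite

/-- `e₁, e₂, e₃` are consecutive edges of `G`: there are vertices `a, b, c, d` with `a ≠ c`, `b ≠ d`
such that `ab, bc, cd` are edges of `G` and `e₁ = ab`, `e₂ = bc`, `e₃ = cd`. So the three edges form
a path of length three (`a ≠ d`) or a triangle (`a = d`), with `e₂` in the middle. -/
def Consecutive {V : Type*} (G : SimpleGraph V) (e₁ e₂ e₃ : Sym2 V) : Prop :=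
  ∃ a b c d : V, G.Adj a b ∧ G.Adj b c ∧ G.Adj c d ∧ a ≠ c ∧ b ≠ d ∧
    e₁ = s(a, b) ∧ e₂ = s(b, c) ∧ e₃ = s(c, d)

/-- `G` has an injective edge-colouring with `k` colours -/
def InjEdgeColorable {V : Type*} (G : SimpleGraph V) (k : ℕ) : Prop :=
  ∃ f : G.edgeSet → Fin k, ∀ e₁ e₂ e₃ : G.edgeSet, Consecutive G e₁ e₂ e₃ → f e₁ ≠ f e₃

/-- the injective chromatic index -/
noncomputable def injChromaticIndex {V : Type*} (G : SimpleGraph V) : ℕ :=
  sInf {k : ℕ | InjEdgeColorable G k}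

theorem result {V : Type*} [Finite V] (G : SimpleGraph V)
    (hsub : ∀ v, (G.neighborSet v).ncard ≤ 3) (hbip : G.IsBipartite) :
    InjEdgeColorable G 5 ∧ injChromaticIndex G ≤ 5 := by
  have h : InjEdgeColorable G 5 := by
    obtain ⟨c, hc⟩ := Pool.Agent.Helper7.Inj.fin_ncard Pool.Agent.Helper65.Inj.main G hsub hbip
    refine ⟨fun e => c e.1, ?_⟩
    rintro ⟨e₁, h1⟩ ⟨e₂, h2⟩ ⟨e₃, h3⟩ ⟨a, b, c', d, hab, hbc, hcd, hac, hbd, rfl, rfl, rfl⟩
    exact hc a b c' d hab hbc hcd hac hbd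
  exact ⟨h, Nat.sInf_le h⟩

end Pool.Agent.Results.MP_25cd9d_co.SubcubicBipartite
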